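import Pool.Agent.N162.GP.Stm2
import Pool.Agent.Y988.NT.Res
import Pool.Agent.Y944.NT.NLa

/-!
Project GP, part CIA: the residue forms on smooth complete intersections are regular.
-/

set_option autoImplicit false
set_option linter.unusedSectionVars false

namespace Pool.Agent.N364.GP

section lin

variable {K : Type} [Field K] {γ κ ι : Type} [Fintype γ] [Fintype κ] [Fintype ι]
  [DecidableEq γ] [DecidableEq κ] [DecidableEq ι]

/-- the square matrix with the rows `V` and `R` -/
def mm (e : γ ⊕ κ ≃ ι) (V : γ → ι → K) (R : κ → ι → K) : Matrix (γ ⊕ κ) (γ ⊕ κ) K :=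
  Matrix.of fun r s => Sum.elim V R r (e s)

/-- the products of the rows and the gradients -/
def pr (V : γ → ι → K) (G : ι → γ → K) : Matrix γ γ K := Matrix.of fun a b => ∑ l, V a l * G l b

/-- a complement of the columns of `G` -/
theorem exists_compl (e : γ ⊕ κ ≃ ι) (G : ι → γ → K)
    (hG : LinearIndependent K fun (g : γ) (l : ι) => G l g) :
    ∃ U : ι → κ → K,
      (Matrix.of fun (s : γ ⊕ κ) (r : γ ⊕ κ) => Sum.elim (G (e s)) (U (e s)) r).det ≠ 0 := by
  obtain ⟨W, hW⟩ := Submodule.exists_isCompl (Submodule.span K (Set.range fun (g : γ) (l : ι) => G l g))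
  have h1 : Module.finrank K W = Fintype.card κ := by
    have h2 := Submodule.finrank_add_eq_of_isCompl hW
    rw [finrank_span_eq_card hG, Module.finrank_pi, ← Fintype.card_congr e, Fintype.card_sum] at h2
    omega
  let b : Module.Basis κ K W := (Module.finBasisOfFinrankEq K W h1).reindex (Fintype.equivFin κ).symm
  have hb : LinearIndependent K fun k : κ => ((b k : W) : ι → K) :=
    b.linearIndependent.map' W.subtype (Submodule.ker_subtype W)
  have hspan : Submodule.span K (Set.range fun k : κ => ((b k : W) : ι → K)) ≤ W := by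
    rw [Submodule.span_le]
    rintro _ ⟨k, rfl⟩
    exact (b k).2
  have h3 := LinearIndependent.sum_type hG hb (hW.disjoint.mono_right hspan)
  refine ⟨fun l k => (b k : ι → K) l, ?_⟩
  intro h0
  rw [← Matrix.exists_mulVec_eq_zero_iff] at h0
  obtain ⟨v, hv0, hv⟩ := h0
  apply hv0
  rw [Fintype.linearIndependent_iff] at h3
  funext r
  refine h3 v ?_ r
  funext l
  have h4 := congrFun hv (e.symm l)
  simp only [Matrix.mulVec, dotProduct, Matrix.of_apply, Equiv.apply_symm_apply, Pi.zero_apply] at h4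
  rw [Finset.sum_apply, Pi.zero_apply, ← h4]
  refine Finset.sum_congr rfl fun r _ => ?_
  rcases r with g | k
  · simp [mul_comm]
  · simp [mul_comm]

theorem key_one (e : γ ⊕ κ ≃ ι) (G : ι → γ → K) (U : ι → κ → K) (V : γ → ι → K) (R : κ → ι → K)
    (hR : ∀ k g, ∑ l, R k l * G l g = 0) :
    (mm e V R).det *
      (Matrix.of fun (s : γ ⊕ κ) (r : γ ⊕ κ) => Sum.elim (G (e s)) (U (e s)) r).det =
      (pr V G).det * (Matrix.of fun k k' : κ => ∑ l, R k l * U l k').det := by
  rw [← Matrix.det_mul, ← Matrix.det_fromBlocks_zero₂₁ (pr V G)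
    (Matrix.of fun (g : γ) (k : κ) => ∑ l, V g l * U l k)]
  congr 1
  ext r s
  rw [Matrix.mul_apply]
  have h1 : ∑ j, mm e V R r j * (Matrix.of fun (s : γ ⊕ κ) (r : γ ⊕ κ) =>
      Sum.elim (G (e s)) (U (e s)) r) j s = ∑ l, Sum.elim V R r l * Sum.elim (G l) (U l) s := by
    rw [← e.sum_comp]
    rfl
  rw [h1]
  rcases r with g | k <;> rcases s with g' | k'
  · rfl
  · rfl
  · exact hR k g'
  · rfl

theorem li_of {G : ι → γ → K} {V : γ → ι → K} (h : (pr V G).det ≠ 0) :
    LinearIndependent K fun (g : γ) (l : ι) => G l g := by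
  rw [Fintype.linearIndependent_iff]
  intro a ha
  have h1 : (pr V G).mulVec a = 0 := by
    funext g
    have h2 : ∀ l, ∑ b, a b * G l b = 0 := fun l => by
      have := congrFun ha l
      rwa [Finset.sum_apply] at this
    simp only [pr, Matrix.mulVec, dotProduct, Matrix.of_apply, Pi.zero_apply, Finset.sum_mul]
    rw [Finset.sum_comm]
    refine Finset.sum_eq_zero fun l _ => ?_
    have h3 : ∑ b, V g l * G l b * a b = V g l * ∑ b, a b * G l b := by
      rw [Finset.mul_sum]
      exact Finset.sum_congr rfl fun b _ => by ring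
    rw [h3, h2, mul_zero]
  exact fun i => congrFun (Matrix.eq_zero_of_mulVec_eq_zero h h1) i

/-- the key identity -/
theorem key (e : γ ⊕ κ ≃ ι) (G : ι → γ → K) (V V' : γ → ι → K) (R : κ → ι → K)
    (hR : ∀ k g, ∑ l, R k l * G l g = 0) :
    (pr V' G).det * (mm e V R).det = (pr V G).det * (mm e V' R).det := by
  by_cases h : LinearIndependent K fun (g : γ) (l : ι) => G l g
  · obtain ⟨U, hU⟩ := exists_compl e G h
    have h1 := key_one e G U V R hR
    have h2 := key_one e G U V' R hR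
    apply mul_right_cancel₀ hU
    linear_combination (pr V' G).det * h1 - (pr V G).det * h2
  · have h1 : (pr V G).det = 0 := by
      by_contra h0
      exact h (li_of h0)
    have h2 : (pr V' G).det = 0 := by
      by_contra h0
      exact h (li_of h0)
    rw [h1, h2, zero_mul, zero_mul]

/-- row operations -/
theorem mm_mul (e : γ ⊕ κ ≃ ι) (V : γ → ι → K) (R R' : κ → ι → K) (T : Matrix κ κ K)
    (h : ∀ k l, R' k l = ∑ k', T k k' * R k' l) : (mm e V R').det = T.det * (mm e V R).det := by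
  have h1 : mm e V R' = Matrix.fromBlocks (1 : Matrix γ γ K) 0 0 T * mm e V R := by
    ext r s
    rw [Matrix.mul_apply, Fintype.sum_sum_type]
    rcases r with g | k
    · simp [mm, Matrix.one_apply]
    · simp [mm, h]
  rw [h1, Matrix.det_mul, Matrix.det_fromBlocks_zero₂₁, Matrix.det_one, one_mul]

/-- the determinant is not zero -/
theorem mm_ne (e : γ ⊕ κ ≃ ι) (G : ι → γ → K) (V : γ → ι → K) (R : κ → ι → K)
    (hR : ∀ k g, ∑ l, R k l * G l g = 0) (h : (pr V G).det ≠ 0)
    (hli : ∀ b : κ → K, (∀ l, ∑ k, b k * R k l = 0) → b = 0) : (mm e V R).det ≠ 0 := by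
  intro h0
  rw [← Matrix.exists_vecMul_eq_zero_iff] at h0
  obtain ⟨v, hv0, hv⟩ := h0
  have h1 : ∀ l, ∑ g, v (Sum.inl g) * V g l + ∑ k, v (Sum.inr k) * R k l = 0 := by
    intro l
    have h2 := congrFun hv (e.symm l)
    rw [Matrix.vecMul, dotProduct, Fintype.sum_sum_type] at h2
    simpa [mm] using h2
  have h2 : (fun g => v (Sum.inl g)) = 0 := by
    refine Matrix.eq_zero_of_vecMul_eq_zero h ?_
    funext b
    have h3 : ∑ l, (∑ g, v (Sum.inl g) * V g l + ∑ k, v (Sum.inr k) * R k l) * G l b = 0 :=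
      Finset.sum_eq_zero fun l _ => by rw [h1 l, zero_mul]
    have h4 : ∑ l, (∑ g, v (Sum.inl g) * V g l + ∑ k, v (Sum.inr k) * R k l) * G l b =
        ∑ g, v (Sum.inl g) * (∑ l, V g l * G l b) + ∑ k, v (Sum.inr k) * ∑ l, R k l * G l b := by
      simp only [add_mul, Finset.sum_add_distrib, Finset.sum_mul, Finset.mul_sum]
      congr 1
      · rw [Finset.sum_comm]
        exact Finset.sum_congr rfl fun g _ => Finset.sum_congr rfl fun l _ => by ring
      · rw [Finset.sum_comm]
        exact Finset.sum_congr rfl fun g _ => Finset.sum_congr rfl fun l _ => by ring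
    rw [h4] at h3
    simp only [hR, mul_zero, Finset.sum_const_zero, add_zero] at h3
    exact h3
  have h3 : (fun k => v (Sum.inr k)) = 0 := by
    apply hli
    intro l
    have h4 := h1 l
    have h5 : ∀ g, v (Sum.inl g) = 0 := fun g => congrFun h2 g
    simp only [h5, zero_mul, Finset.sum_const_zero, zero_add] at h4
    exact h4
  apply hv0
  funext r
  rcases r with g | k
  · exact congrFun h2 g
  · exact congrFun h3 k

/-- the minor -/
def mnr (G : ι → γ → K) (I : γ → ι) : K := (Matrix.of fun k i => G (I k) i).det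

/-- the standard rows -/
def sr (I : γ → ι) : γ → ι → K := fun k => Pi.single (I k) 1

theorem pr_sr (G : ι → γ → K) (I : γ → ι) : (pr (sr I) G).det = mnr G I := by
  unfold pr mnr sr
  congr 1
  ext a b
  simp only [Matrix.of_apply]
  rw [Finset.sum_eq_single (I a)]
  · rw [Pi.single_eq_same, one_mul]
  · intro l _ hl
    rw [Pi.single_eq_of_ne hl, zero_mul]
  · intro h
    exact absurd (Finset.mem_univ _) h

/-- linearly independent vectors have a minor different from zero -/
theorem exists_minor (G : ι → γ → K) (hG : LinearIndependent K fun (g : γ) (l : ι) => G l g) :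
    ∃ I : γ → ι, mnr G I ≠ 0 := by
  by_contra hcon
  push Not at hcon
  have hinj : LinearMap.ker (Fintype.linearCombination K fun (g : γ) (l : ι) => G l g) = ⊥ := by
    rw [LinearMap.ker_eq_bot']
    intro a ha
    rw [Fintype.linearIndependent_iff] at hG
    funext i
    exact hG a (by rw [← ha]; rfl) i
  obtain ⟨L, hL⟩ := LinearMap.exists_leftInverse_of_injective _ hinj
  have h1 : pr (fun (a : γ) (l : ι) => L (Pi.single l 1) a) G = 1 := by
    ext a b
    have h2 := congrFun (LinearMap.congr_fun hL (Pi.single b 1)) a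
    have h3 : (Fintype.linearCombination K fun (g : γ) (l : ι) => G l g) (Pi.single b 1) =
        ∑ l, G l b • (Pi.single l 1 : ι → K) := by
      rw [Fintype.linearCombination_apply_single, one_smul]
      funext l
      rw [Finset.sum_apply, Finset.sum_eq_single l]
      · simp
      · intro l' _ hl
        simp [Pi.single_eq_of_ne (Ne.symm hl)]
      · intro h
        exact absurd (Finset.mem_univ _) h
    rw [LinearMap.comp_apply, h3, map_sum, Finset.sum_apply, LinearMap.id_apply] at h2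
    simp only [map_smul, Pi.smul_apply, smul_eq_mul] at h2
    have h4 : pr (fun (a : γ) (l : ι) => L (Pi.single l 1) a) G a b =
        ∑ l, G l b * L (Pi.single l 1) a := by
      unfold pr
      exact Finset.sum_congr rfl fun l _ => mul_comm _ _
    rw [h4, h2, Matrix.one_apply, Pi.single_apply]
  have h2 : (pr (fun (a : γ) (l : ι) => L (Pi.single l 1) a) G).det = 0 := by
    obtain ⟨V, hV⟩ : ∃ V : γ → ι → K, V = fun (a : γ) (l : ι) => L (Pi.single l 1) a := ⟨_, rfl⟩
    rw [← hV]
    have h3 : (pr V G).det = Matrix.detRowAlternating (fun a => ∑ l, V a l • G l) := by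
      congr 1
      ext a b
      simp [pr]
    have h4 := (Matrix.detRowAlternating (n := γ) (R := K)).toMultilinearMap.map_sum
      (fun (a : γ) (l : ι) => V a l • G l)
    rw [h3]
    refine Eq.trans h4 (Finset.sum_eq_zero fun I _ => ?_)
    have h5 := (Matrix.detRowAlternating (n := γ) (R := K)).toMultilinearMap.map_smul_univ
      (fun a => V a (I a)) (fun a => G (I a))
    refine Eq.trans h5 ?_
    have h6 : (Matrix.detRowAlternating (n := γ) (R := K)).toMultilinearMap (fun a => G (I a)) =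
        mnr G I := rfl
    rw [h6, hcon, smul_zero]
  rw [h1, Matrix.det_one] at h2
  exact one_ne_zero h2

end lin

section geo

open FF MvPolynomial Pool.Agent.W603.LV Pool.Agent.W602.GT Pool.Agent.Y184.NT
open Pool.Agent.N162.BC Pool.Agent.N162.GP

variable {M n c : ℕ} {K : Type} [Field K] [Algebra ℂ K]

/-- the gradients -/
noncomputable def gr (F : Fin c → MvPolynomial (Fin (M + 2)) ℂ) (y : Fin (M + 2) → K)
    (l : Fin (M + 2)) (i : Fin c) : K := aeval y (pderiv l (F i))

/-- the minors of the matrix of the gradients, as polynomials -/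
noncomputable def mp (F : Fin c → MvPolynomial (Fin (M + 2)) ℂ) (I : Fin c → Fin (M + 2)) :
    MvPolynomial (Fin (M + 2)) ℂ := (Matrix.of fun k i => pderiv (I k) (F i)).det

theorem aeval_mp (F : Fin c → MvPolynomial (Fin (M + 2)) ℂ) (I : Fin c → Fin (M + 2))
    (y : Fin (M + 2) → K) : aeval y (mp F I) = mnr (gr F y) I := by
  unfold mp mnr
  rw [AlgHom.map_det]
  rfl

/-- the ideal of the equations and the minors -/
noncomputable def JJ (F : Fin c → MvPolynomial (Fin (M + 2)) ℂ) :
    Ideal (MvPolynomial (Fin (M + 2)) ℂ) := Ideal.span (Set.range F ∪ Set.range (mp F))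

/-- the Nullstellensatz -/
theorem cert {F : Fin c → MvPolynomial (Fin (M + 2)) ℂ}
    (hs : ∀ z : Fin (M + 2) → ℂ, z ≠ 0 → (∀ i, eval z (F i) = 0) →
      LinearIndependent ℂ fun (i : Fin c) (l : Fin (M + 2)) => eval z (pderiv l (F i)))
    (j : Fin (M + 2)) : ∃ N : ℕ, (X j : MvPolynomial (Fin (M + 2)) ℂ) ^ N ∈ JJ F := by
  have h1 : (X j : MvPolynomial (Fin (M + 2)) ℂ) ∈ vanishingIdeal ℂ (zeroLocus ℂ (JJ F)) := by
    rw [mem_vanishingIdeal_iff]
    intro z hz
    rw [mem_zeroLocus_iff] at hz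
    have hz0 : z = 0 := by
      by_contra hne
      have h2 : ∀ i, eval z (F i) = 0 := fun i => by
        have := hz (F i) (Ideal.subset_span (Or.inl ⟨i, rfl⟩))
        exact this
      have h3 := hs z hne h2
      obtain ⟨I, hI⟩ := exists_minor (gr F z) h3
      apply hI
      rw [← aeval_mp]
      exact hz (mp F I) (Ideal.subset_span (Or.inr ⟨I, rfl⟩))
    rw [hz0, aeval_X]
    rfl
  rw [vanishingIdeal_zeroLocus_eq_radical] at h1
  exact h1

/-- some minor is not zero at the generic point -/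
theorem minor_ne {F : Fin c → MvPolynomial (Fin (M + 2)) ℂ}
    (hs : ∀ z : Fin (M + 2) → ℂ, z ≠ 0 → (∀ i, eval z (F i) = 0) →
      LinearIndependent ℂ fun (i : Fin c) (l : Fin (M + 2)) => eval z (pderiv l (F i)))
    {y : Fin (M + 2) → K} (hy : ∀ i, aeval y (F i) = 0) {j : Fin (M + 2)} (hj : y j ≠ 0) :
    ∃ I, mnr (gr F y) I ≠ 0 := by
  by_contra hcon
  push Not at hcon
  obtain ⟨N, hN⟩ := cert hs j
  have h1 : ∀ Q ∈ JJ F, aeval y Q = 0 := by
    intro Q hQ
    refine Submodule.span_induction ?_ ?_ ?_ ?_ hQ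
    · rintro _ (⟨i, rfl⟩ | ⟨I, rfl⟩)
      · exact hy i
      · rw [aeval_mp, hcon]
    · exact map_zero _
    · intro a b _ _ ha hb
      rw [map_add, ha, hb, add_zero]
    · intro a b _ hb
      rw [smul_eq_mul, map_mul, hb, mul_zero]
  have h2 := h1 _ hN
  rw [map_pow, aeval_X] at h2
  exact pow_ne_zero N hj h2

/-- some minor is a unit at a place where the coordinates are regular and one of them is `1` -/
theorem minor_unit {F : Fin c → MvPolynomial (Fin (M + 2)) ℂ}
    (hs : ∀ z : Fin (M + 2) → ℂ, z ≠ 0 → (∀ i, eval z (F i) = 0) →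
      LinearIndependent ℂ fun (i : Fin c) (l : Fin (M + 2)) => eval z (pderiv l (F i)))
    {y : Fin (M + 2) → K} (hy : ∀ i, aeval y (F i) = 0) (P : Place ℂ K) (hreg : ∀ l, P.Reg (y l))
    {j : Fin (M + 2)} (hj : y j = 1) :
    ∃ I, mnr (gr F y) I ≠ 0 ∧ P.ord (mnr (gr F y) I) = 0 := by
  by_contra hcon
  push Not at hcon
  obtain ⟨N, hN⟩ := cert hs j
  have h3 : ∀ I, Ge P 1 (mnr (gr F y) I) := by
    intro I
    by_cases h0 : mnr (gr F y) I = 0
    · exact Or.inl h0
    · right
      have h2 := hcon I h0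
      have h3 : P.Reg (mnr (gr F y) I) := by
        rw [← aeval_mp]
        exact Pool.Agent.Y988.NT.reg_aeval hreg _
      have h4 := h3.resolve_left h0
      omega
  have h1 : ∀ Q ∈ JJ F, Ge P 1 (aeval y Q) := by
    intro Q hQ
    refine Submodule.span_induction ?_ ?_ ?_ ?_ hQ
    · rintro _ (⟨i, rfl⟩ | ⟨I, rfl⟩)
      · exact Or.inl (hy i)
      · rw [aeval_mp]
        exact h3 I
    · exact Or.inl (map_zero _)
    · intro a b _ _ ha hb
      rw [map_add]
      exact ha.add hb
    · intro a b _ hb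
      rw [smul_eq_mul, map_mul]
      have h6 := (show Ge P 0 (aeval y a) from Pool.Agent.Y988.NT.reg_aeval hreg a).mul hb
      simpa using h6
  have h2 := h1 _ hN
  rw [map_pow, aeval_X, hj, one_pow] at h2
  rcases h2 with h4 | h4
  · exact one_ne_zero h4
  · rw [P.ord_one] at h4
    omega

/-- the rows `y` and `D i y` -/
def RR (y : Fin (M + 2) → K) (D : Fin n → Derivation ℂ K K) :
    Unit ⊕ Fin n → Fin (M + 2) → K := Sum.elim (fun _ => y) fun i j => D i (y j)

theorem RR_G {F : Fin c → MvPolynomial (Fin (M + 2)) ℂ} {d : Fin c → ℕ}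
    (hF : ∀ i, (F i).IsHomogeneous (d i)) {y : Fin (M + 2) → K} (hy : ∀ i, aeval y (F i) = 0)
    (D : Fin n → Derivation ℂ K K) (k : Unit ⊕ Fin n) (g : Fin c) :
    ∑ l, RR y D k l * gr F y l g = 0 := by
  rcases k with u | i
  · have h := Pool.Agent.Y988.NT.euler_aeval (hF g) (hy g)
    rw [← h]
    exact Finset.sum_congr rfl fun l _ => mul_comm _ _
  · have h := Pool.Agent.Y988.NT.der_aeval (D i) y (F g)
    rw [hy g, map_zero] at h
    rw [h]
    exact Finset.sum_congr rfl fun l _ => mul_comm _ _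

/-- the degrees are positive -/
theorem deg_pos {F : Fin c → MvPolynomial (Fin (M + 2)) ℂ} {d : Fin c → ℕ}
    (hF : ∀ i, (F i).IsHomogeneous (d i)) {y : Fin (M + 2) → K} {I : Fin c → Fin (M + 2)}
    (hI : mnr (gr F y) I ≠ 0) (i : Fin c) : 1 ≤ d i := by
  by_contra hcon
  have h0 : d i = 0 := by omega
  apply hI
  have h1 := hF i
  rw [h0] at h1
  have h2 : (F i).totalDegree = 0 := Nat.le_zero.1 h1.totalDegree_le
  rw [totalDegree_eq_zero_iff_eq_C] at h2
  refine Matrix.det_eq_zero_of_column_eq_zero i fun k => ?_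
  show aeval y (pderiv (I k) (F i)) = 0
  rw [h2, pderiv_C, map_zero]

/-- scaling of the minors -/
theorem mnr_scale {F : Fin c → MvPolynomial (Fin (M + 2)) ℂ} {d : Fin c → ℕ}
    (hF : ∀ i, (F i).IsHomogeneous (d i)) (y : Fin (M + 2) → K) (μ : K)
    (I : Fin c → Fin (M + 2)) :
    mnr (gr F fun l => μ * y l) I = μ ^ (∑ i, (d i - 1)) * mnr (gr F y) I := by
  have h1 : mnr (gr F fun l => μ * y l) I =
      (Matrix.of fun k i => μ ^ (d i - 1) * (Matrix.of fun k i => gr F y (I k) i) k i).det := by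
    unfold mnr
    congr 1
    ext k i
    show aeval (fun l => μ * y l) (pderiv (I k) (F i)) = μ ^ (d i - 1) * aeval y (pderiv (I k) (F i))
    exact Pool.Agent.Y988.NT.aeval_smul_form ((hF i).pderiv (i := I k)) μ y
  rw [h1, Matrix.det_mul_row, Finset.prod_pow_eq_pow_sum]
  rfl

/-- scaling of the determinants -/
theorem mm_scale (e : Fin c ⊕ (Unit ⊕ Fin n) ≃ Fin (M + 2)) (V : Fin c → Fin (M + 2) → K)
    (y : Fin (M + 2) → K) (D : Fin n → Derivation ℂ K K) (μ : K) :
    (mm e V (RR (fun l => μ * y l) D)).det = μ ^ (n + 1) * (mm e V (RR y D)).det := by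
  have h1 := mm_mul e V (RR y D) (RR (fun l => μ * y l) D)
    (Matrix.fromBlocks (Matrix.of fun _ _ => μ) 0 (Matrix.of fun i _ => D i μ)
      (Matrix.diagonal fun _ => μ)) (by
      intro k l
      rw [Fintype.sum_sum_type]
      rcases k with u | i
      · simp [RR]
      · simp [RR, Matrix.diagonal_apply, ite_mul, mul_comm, add_comm])
  rw [h1, Matrix.det_fromBlocks_zero₁₂, Matrix.det_diagonal]
  congr 1
  simp [pow_succ, mul_comm]

/-- linear substitutions -/
theorem mm_sub (e : Fin c ⊕ (Unit ⊕ Fin n) ≃ Fin (M + 2)) (V : Fin c → Fin (M + 2) → K)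
    (y : Fin (M + 2) → K) (D : Fin n → Derivation ℂ K K) (A : Matrix (Fin n) (Fin n) K) :
    (mm e V (RR y fun i => ∑ j, A i j • D j)).det = A.det * (mm e V (RR y D)).det := by
  have h1 := mm_mul e V (RR y D) (RR y fun i => ∑ j, A i j • D j)
    (Matrix.fromBlocks (1 : Matrix Unit Unit K) 0 0 A) (by
      intro k l
      rw [Fintype.sum_sum_type]
      rcases k with u | i
      · simp [RR]
      · simp only [RR, Sum.elim_inr, Sum.elim_inl, Matrix.fromBlocks_apply₂₁,
          Matrix.fromBlocks_apply₂₂, Matrix.zero_apply, zero_mul, Finset.sum_const_zero, zero_add]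
        exact Pool.Agent.Y988.NT.sum_der (A i) D (y l))
  rw [h1, Matrix.det_fromBlocks_zero₂₁, Matrix.det_one, one_mul]

/-- a derivation which kills generators is zero -/
theorem der_zero {x : Fin (M + 2) → K} (hgen : IntermediateField.adjoin ℂ (Set.range x) = ⊤)
    (D : Derivation ℂ K K) (hD : ∀ j, D (x j) = 0) : D = 0 := by
  ext a
  have ha : a ∈ IntermediateField.adjoin ℂ (Set.range x) := by
    rw [hgen]
    exact IntermediateField.mem_top
  rw [Derivation.coe_zero, Pi.zero_apply]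
  refine IntermediateField.adjoin_induction (p := fun a _ => D a = 0) ℂ ?_ ?_ ?_ ?_ ?_ ha
  · rintro _ ⟨j, rfl⟩
    exact hD j
  · exact fun z => D.map_algebraMap z
  · intro a b _ _ h1 h2
    rw [map_add, h1, h2, add_zero]
  · intro a _ h1
    rw [D.leibniz_inv, h1, smul_zero]
  · intro a b _ _ h1 h2
    rw [D.leibniz, h1, h2, smul_zero, smul_zero, add_zero]

/-- the canonical form with the standard rows -/
noncomputable def om (e : Fin c ⊕ (Unit ⊕ Fin n) ≃ Fin (M + 2))
    (F : Fin c → MvPolynomial (Fin (M + 2)) ℂ) (y : Fin (M + 2) → K) (I : Fin c → Fin (M + 2))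
    (D : Fin n → Derivation ℂ K K) : K :=
  (mnr (gr F y) I)⁻¹ * (mm e (sr I) (RR y D)).det

/-- the form does not depend on the rows -/
theorem om_eq (e : Fin c ⊕ (Unit ⊕ Fin n) ≃ Fin (M + 2))
    {F : Fin c → MvPolynomial (Fin (M + 2)) ℂ} {d : Fin c → ℕ}
    (hF : ∀ i, (F i).IsHomogeneous (d i)) {y : Fin (M + 2) → K} (hy : ∀ i, aeval y (F i) = 0)
    {I J : Fin c → Fin (M + 2)} (hI : mnr (gr F y) I ≠ 0) (hJ : mnr (gr F y) J ≠ 0)
    (D : Fin n → Derivation ℂ K K) : om e F y I D = om e F y J D := by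
  have h := key e (gr F y) (sr I) (sr J) (RR y D) (RR_G hF hy D)
  rw [pr_sr, pr_sr] at h
  unfold om
  field_simp
  linear_combination h

theorem om_pluri (e : Fin c ⊕ (Unit ⊕ Fin n) ≃ Fin (M + 2))
    (F : Fin c → MvPolynomial (Fin (M + 2)) ℂ) (y : Fin (M + 2) → K) (I : Fin c → Fin (M + 2))
    (a : K) : IsPluri 1 (fun D : Fin n → Derivation ℂ K K => a * om e F y I D) := by
  intro A D
  show a * om e F y I (fun i => ∑ j, A i j • D j) = A.det ^ 1 * (a * om e F y I D)
  unfold om
  rw [mm_sub]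
  ring

/-- regularity -/
theorem om_reg (e : Fin c ⊕ (Unit ⊕ Fin n) ≃ Fin (M + 2))
    {F : Fin c → MvPolynomial (Fin (M + 2)) ℂ} {d : Fin c → ℕ} {m : ℕ}
    (hF : ∀ i, (F i).IsHomogeneous (d i))
    (hs : ∀ z : Fin (M + 2) → ℂ, z ≠ 0 → (∀ i, eval z (F i) = 0) →
      LinearIndependent ℂ fun (i : Fin c) (l : Fin (M + 2)) => eval z (pderiv l (F i)))
    (hm : m + M + 2 = ∑ i, d i) (hn : n + c = M + 1) {x : Fin (M + 2) → K}
    (hx : ∀ i, aeval x (F i) = 0) (hx0 : x 0 ≠ 0) {I₀ : Fin c → Fin (M + 2)}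
    (hI₀ : mnr (gr F x) I₀ ≠ 0) {A : MvPolynomial (Fin (M + 2)) ℂ} (hA : A.IsHomogeneous m)
    (P : Place ℂ K) : RegAt P (fun D : Fin n → Derivation ℂ K K => aeval x A * om e F x I₀ D) := by
  classical
  intro D hD
  obtain ⟨j, hj, hmin⟩ := Finset.exists_min_image (Finset.univ.filter fun l => x l ≠ 0)
    (fun l => P.ord (x l)) ⟨0, by simp [hx0]⟩
  have hj0 : x j ≠ 0 := (Finset.mem_filter.1 hj).2
  obtain ⟨μ, hμ⟩ : ∃ μ : K, μ = x j := ⟨_, rfl⟩
  have hμ0 : μ ≠ 0 := by rw [hμ]; exact hj0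
  obtain ⟨y, hy⟩ : ∃ y : Fin (M + 2) → K, y = fun l => μ⁻¹ * x l := ⟨_, rfl⟩
  have hxy : x = fun l => μ * y l := by
    funext l
    rw [hy, mul_inv_cancel_left₀ hμ0]
  have hy1 : y j = 1 := by
    rw [hy]
    show μ⁻¹ * x j = 1
    rw [← hμ, inv_mul_cancel₀ hμ0]
  have hreg : ∀ l, P.Reg (y l) := by
    intro l
    rw [hy]
    change P.Reg (μ⁻¹ * x l)
    by_cases h0 : x l = 0
    · left
      rw [h0, mul_zero]
    · right
      rw [P.ord_mul (inv_ne_zero hμ0) h0, P.ord_inv, hμ]
      have h1 := hmin l (by simp [h0])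
      omega
  have hFy : ∀ i, aeval y (F i) = 0 := by
    intro i
    rw [hy, Pool.Agent.Y988.NT.aeval_smul_form (hF i), hx, mul_zero]
  obtain ⟨I, hI1, hI2⟩ := minor_unit hs hFy P hreg hy1
  have hsc := mnr_scale hF y μ I
  rw [← hxy] at hsc
  have hI : mnr (gr F x) I ≠ 0 := by
    rw [hsc]
    exact mul_ne_zero (pow_ne_zero _ hμ0) hI1
  have hd : ∑ i, (d i - 1) = m + (n + 1) := by
    have h1 : ∑ i, d i = ∑ i, (d i - 1) + c := by
      have h2 : ∑ i, d i = ∑ i, ((d i - 1) + 1) :=
        Finset.sum_congr rfl fun i _ => by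
          have := deg_pos hF hI i
          omega
      rw [h2, Finset.sum_add_distrib]
      simp
    omega
  have key1 : aeval x A * om e F x I₀ D = aeval y A * om e F y I D := by
    rw [om_eq e hF hx hI₀ hI D]
    unfold om
    have h2 := mm_scale e (sr I) y D μ
    rw [← hxy] at h2
    have h3 := Pool.Agent.Y988.NT.aeval_smul_form hA μ y
    rw [← hxy] at h3
    rw [h3, h2, hsc, hd]
    field_simp
    ring
  show P.Reg (aeval x A * om e F x I₀ D)
  rw [key1]
  refine P.reg_mul (Pool.Agent.Y988.NT.reg_aeval hreg A) (P.reg_mul ?_ ?_)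
  · right
    rw [P.ord_inv, hI2]
    simp
  · refine Pool.Agent.Y988.NT.reg_det P _ fun a b => ?_
    rcases a with a | a | a
    · show P.Reg (sr I a (e b))
      unfold sr
      rw [Pi.single_apply]
      split_ifs
      · exact P.reg_one
      · exact P.reg_zero
    · exact hreg (e b)
    · exact hD a _ (hreg (e b))

/-- the form is not zero -/
theorem om_ne (e : Fin c ⊕ (Unit ⊕ Fin n) ≃ Fin (M + 2))
    {F : Fin c → MvPolynomial (Fin (M + 2)) ℂ} {d : Fin c → ℕ}
    (hF : ∀ i, (F i).IsHomogeneous (d i)) {x : Fin (M + 2) → K}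
    (hx : ∀ i, aeval x (F i) = 0) (hx0 : x 0 = 1)
    (hgen : IntermediateField.adjoin ℂ (Set.range x) = ⊤) {I : Fin c → Fin (M + 2)}
    (hI : mnr (gr F x) I ≠ 0) {z : Fin n → K} {D : Fin n → Derivation ℂ K K}
    (hD : ∀ i j, D i (z j) = if i = j then 1 else 0) : om e F x I D ≠ 0 := by
  refine mul_ne_zero (inv_ne_zero hI) (mm_ne e (gr F x) (sr I) (RR x D) (RR_G hF hx D) ?_ ?_)
  · rw [pr_sr]
    exact hI
  · intro b hb
    have h1 : ∀ l, b (Sum.inl ()) * x l + ∑ i, b (Sum.inr i) * D i (x l) = 0 := by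
      intro l
      have h2 := hb l
      rw [Fintype.sum_sum_type] at h2
      simpa [RR] using h2
    have h2 : b (Sum.inl ()) = 0 := by
      have h3 := h1 0
      rw [hx0] at h3
      simpa using h3
    obtain ⟨D', hD'⟩ : ∃ D' : Derivation ℂ K K, D' = ∑ i, b (Sum.inr i) • D i := ⟨_, rfl⟩
    have h3 : D' = 0 := by
      refine der_zero hgen D' fun l => ?_
      have h4 := h1 l
      rw [h2, zero_mul, zero_add] at h4
      rw [hD', Pool.Agent.Y988.NT.sum_der (fun i => b (Sum.inr i)) D (x l)]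
      exact h4
    funext r
    rcases r with u | i
    · exact h2
    · have h4 : D' (z i) = b (Sum.inr i) := by
        rw [hD', Pool.Agent.Y988.NT.sum_der (fun i => b (Sum.inr i)) D (z i)]
        simp [hD]
      rw [← h4, h3]
      rfl

/-- GP/CIA -/
theorem cia_ : StCIA := by
  intro M n c m K _ _ F d x h _ htr hnc hm
  have hcard : Fintype.card (Fin c ⊕ (Unit ⊕ Fin n)) = Fintype.card (Fin (M + 2)) := by
    simp
    omega
  let e : Fin c ⊕ (Unit ⊕ Fin n) ≃ Fin (M + 2) := Fintype.equivOfCardEq hcard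
  have hx : ∀ i, aeval x (F i) = 0 := fun i =>
    (h.generic (d i) (F i) (h.hom i)).2 (Ideal.le_radical (Ideal.subset_span ⟨i, rfl⟩))
  have hx0 : x 0 ≠ 0 := by
    rw [h.one]
    exact one_ne_zero
  obtain ⟨I, hI⟩ := minor_ne h.smooth hx hx0
  obtain ⟨z, D, hz, hD⟩ := Pool.Agent.Y944.NT.exists_crd htr
  refine ⟨om e F x I, ?_, ⟨D, om_ne e h.hom hx h.one h.gen hI hD⟩, fun P hP => ⟨?_, fun v _ => ?_⟩⟩
  · have h1 := om_pluri e F x I (n := n) 1
    simpa using h1
  · exact om_pluri e F x I (aeval x P)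
  · exact om_reg e h.hom h.smooth hm hnc hx hx0 hI hP v

end geo

end Pool.Agent.N364.GP
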